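import Pool.Agent.Q167.HT.Main

/-!
The attractor of `R = diag(4,5)`, `B = {(0,0),(1,0),(8,1),(9,1)}` and the absence of overlap.
-/

set_option autoImplicit false

open MeasureTheory Filter Topology Set Matrix
open scoped ENNReal Real

namespace Pool.Agent.Q167.HT

/-- the contraction attached to `b` -/
noncomputable def phi {d : ℕ} (R : Matrix (Fin d) (Fin d) ℤ) (b : Fin d → ℤ) (x : Fin d → ℝ) : Fin d → ℝ :=
  (R.map (Int.cast : ℤ → ℝ))⁻¹ *ᵥ (x + fun i => (b i : ℝ))

/-- `T` is the attractor of the system -/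
def IsAttractor {d : ℕ} (R : Matrix (Fin d) (Fin d) ℤ) (B : Finset (Fin d → ℤ)) (T : Set (Fin d → ℝ)) : Prop :=
  IsCompact T ∧ T.Nonempty ∧ T = ⋃ b ∈ B, phi R b '' T

theorem phi_eq (b : Fin 2 → ℤ) : phi RR b = tau (b 0) (b 1) := tau_eq b

/-! ### existence -/

/-- first digits -/
def v0 (p : Bool × Bool) : ℤ := (if p.1 then 1 else 0) + 8 * (if p.2 then 1 else 0)

/-- second digits -/
def v1 (p : Bool × Bool) : ℤ := if p.2 then 1 else 0

/-- the number with given digits -/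
noncomputable def val (r : ℝ) (v : Bool × Bool → ℤ) (ω : ℕ → Bool × Bool) : ℝ := ∑' k, r ^ (k + 1) * (v (ω k) : ℝ)

theorem bound_v (v : Bool × Bool → ℤ) (hv : ∀ p, 0 ≤ v p ∧ v p ≤ 9) {r : ℝ} (hr : 0 < r) (k : ℕ) (p : Bool × Bool) :
    ‖r ^ (k + 1) * (v p : ℝ)‖ ≤ r ^ (k + 1) * 9 := by
  have h1 : (0 : ℝ) ≤ v p := by exact_mod_cast (hv p).1
  have h2 : (v p : ℝ) ≤ 9 := by exact_mod_cast (hv p).2
  rw [Real.norm_of_nonneg (mul_nonneg (by positivity) h1)]
  exact mul_le_mul_of_nonneg_left h2 (by positivity)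

theorem summable_r {r : ℝ} (hr : 0 < r) (hr1 : r < 1) : Summable fun k : ℕ => r ^ (k + 1) * 9 :=
  ((summable_nat_add_iff 1).2 (summable_geometric_of_lt_one hr.le hr1)).mul_right 9

theorem summable_val (v : Bool × Bool → ℤ) (hv : ∀ p, 0 ≤ v p ∧ v p ≤ 9) {r : ℝ} (hr : 0 < r) (hr1 : r < 1)
    (ω : ℕ → Bool × Bool) : Summable fun k => r ^ (k + 1) * (v (ω k) : ℝ) :=
  Summable.of_norm_bounded (summable_r hr hr1) fun k => bound_v v hv hr k _

theorem continuous_val (v : Bool × Bool → ℤ) (hv : ∀ p, 0 ≤ v p ∧ v p ≤ 9) {r : ℝ} (hr : 0 < r) (hr1 : r < 1) :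
    Continuous (val r v) :=
  continuous_tsum (fun k => (continuous_of_discreteTopology (f := fun p => r ^ (k + 1) * (v p : ℝ))).comp
    (continuous_apply k)) (summable_r hr hr1) fun k ω => bound_v v hv hr k _

theorem val_succ (v : Bool × Bool → ℤ) (hv : ∀ p, 0 ≤ v p ∧ v p ≤ 9) {r : ℝ} (hr : 0 < r) (hr1 : r < 1)
    (ω : ℕ → Bool × Bool) : val r v ω = r * (val r v (fun k => ω (k + 1)) + v (ω 0)) := by
  rw [val, (summable_val v hv hr hr1 ω).tsum_eq_zero_add, val, mul_add, ← tsum_mul_left, add_comm]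
  congr 1
  · refine tsum_congr fun k => ?_
    ring
  · ring

theorem hv0 (p : Bool × Bool) : 0 ≤ v0 p ∧ v0 p ≤ 9 := by
  rcases p with ⟨a, c⟩
  cases a <;> cases c <;> simp [v0]

theorem hv1 (p : Bool × Bool) : 0 ≤ v1 p ∧ v1 p ≤ 9 := by
  rcases p with ⟨a, c⟩
  cases c <;> simp [v1]

theorem mem_dig (p : Bool × Bool) : (![v0 p, v1 p] : Fin 2 → ℤ) ∈ BB := by
  rw [mem_BB]
  rcases p with ⟨a, c⟩
  cases a <;> cases c <;> simp [v0, v1]

theorem exists_dig {b : Fin 2 → ℤ} (hb : b ∈ BB) : ∃ p, b = ![v0 p, v1 p] := by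
  rw [mem_BB] at hb
  rcases hb with rfl | rfl | rfl | rfl
  · exact ⟨(false, false), by simp [v0, v1]⟩
  · exact ⟨(true, false), by simp [v0, v1]⟩
  · exact ⟨(false, true), by simp [v0, v1]⟩
  · exact ⟨(true, true), by simp [v0, v1]⟩

/-- the coding map -/
noncomputable def ZZ (ω : ℕ → Bool × Bool) : Fin 2 → ℝ := ![val (1 / 4) v0 ω, val (1 / 5) v1 ω]

theorem ZZ_succ (ω : ℕ → Bool × Bool) :
    ZZ ω = tau (v0 (ω 0)) (v1 (ω 0)) (ZZ fun k => ω (k + 1)) := by
  rw [ZZ, val_succ v0 hv0 (by norm_num) (by norm_num), val_succ v1 hv1 (by norm_num) (by norm_num), tau, ZZ]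
  ext i
  fin_cases i
  · simp; ring
  · simp; ring

theorem exists_attractor : ∃ T, IsAttractor RR BB T := by
  refine ⟨range ZZ, isCompact_range ?_, ⟨ZZ fun _ => (false, false), mem_range_self _⟩, ?_⟩
  · refine continuous_pi fun i => ?_
    fin_cases i
    · exact continuous_val v0 hv0 (by norm_num) (by norm_num)
    · exact continuous_val v1 hv1 (by norm_num) (by norm_num)
  · ext x
    simp only [mem_iUnion, mem_image, exists_prop]
    constructor
    · rintro ⟨ω, rfl⟩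
      refine ⟨_, mem_dig (ω 0), ZZ fun k => ω (k + 1), mem_range_self _, ?_⟩
      rw [phi_eq, ZZ_succ ω]
      rfl
    · rintro ⟨b, hb, y, ⟨ω, rfl⟩, rfl⟩
      obtain ⟨p, rfl⟩ := exists_dig hb
      refine ⟨fun k => Nat.casesOn k p ω, ?_⟩
      rw [phi_eq, ZZ_succ]
      rfl

/-! ### no overlap -/

/-- the closed support of the first marginal -/
def DD : Set ℝ := Icc 0 1 ∪ Icc 2 3

theorem isClosed_DD : IsClosed DD := isClosed_Icc.union isClosed_Icc

theorem DD_nonempty : DD.Nonempty := ⟨0, Or.inl ⟨le_rfl, zero_le_one⟩⟩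

theorem DD_tau {x : ℝ} (hx : x ∈ DD) {t : ℤ} (ht : t = 0 ∨ t = 1 ∨ t = 8 ∨ t = 9) : (x + t) / 4 ∈ DD := by
  rcases hx with ⟨h1, h2⟩ | ⟨h1, h2⟩ <;> rcases ht with rfl | rfl | rfl | rfl
  · left; constructor <;> push_cast <;> linarith
  · left; constructor <;> push_cast <;> linarith
  · right; constructor <;> push_cast <;> linarith
  · right; constructor <;> push_cast <;> linarith
  · left; constructor <;> push_cast <;> linarith
  · left; constructor <;> push_cast <;> linarith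
  · right; constructor <;> push_cast <;> linarith
  · right; constructor <;> push_cast <;> linarith

theorem first_mem {T : Set (Fin 2 → ℝ)} (hT : IsAttractor RR BB T) {x : Fin 2 → ℝ} (hx : x ∈ T) : x 0 ∈ DD := by
  obtain ⟨hc, hne, hEq⟩ := hT
  have hcont : Continuous fun x : Fin 2 → ℝ => Metric.infDist (x 0) DD :=
    (Metric.continuous_infDist_pt DD).comp (continuous_apply 0)
  obtain ⟨m, hm, hmax⟩ := hc.exists_isMaxOn hne hcont.continuousOn
  have hm' := hm
  rw [hEq] at hm'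
  simp only [mem_iUnion, mem_image, exists_prop] at hm'
  obtain ⟨b, hb, y, hy, hym⟩ := hm'
  have h1 : m 0 = (y 0 + b 0) / 4 := by rw [← hym, phi_eq]; rfl
  have hb0 : b 0 = 0 ∨ b 0 = 1 ∨ b 0 = 8 ∨ b 0 = 9 := by
    rw [mem_BB] at hb
    rcases hb with rfl | rfl | rfl | rfl <;> simp
  have h2 : Metric.infDist (m 0) DD ≤ Metric.infDist (y 0) DD / 4 := by
    obtain ⟨z, hz, hz'⟩ := isClosed_DD.exists_infDist_eq_dist DD_nonempty (y 0)
    rw [hz', h1]
    refine (Metric.infDist_le_dist_of_mem (DD_tau hz hb0)).trans ?_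
    rw [Real.dist_eq, Real.dist_eq, show (y 0 + b 0) / 4 - (z + b 0) / 4 = (y 0 - z) / 4 by ring, abs_div,
      abs_of_pos (by norm_num : (0 : ℝ) < 4)]
  have h3 : Metric.infDist (y 0) DD ≤ Metric.infDist (m 0) DD := hmax hy
  have h4 : Metric.infDist (m 0) DD ≤ 0 := by linarith [Metric.infDist_nonneg (x := m 0) (s := DD)]
  have h5 : Metric.infDist (x 0) DD ≤ Metric.infDist (m 0) DD := hmax hx
  have h6 : Metric.infDist (x 0) DD = 0 := le_antisymm (h5.trans h4) Metric.infDist_nonneg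
  exact (isClosed_DD.mem_iff_infDist_zero DD_nonempty).2 h6

theorem second_mem {T : Set (Fin 2 → ℝ)} (hT : IsAttractor RR BB T) {x : Fin 2 → ℝ} (hx : x ∈ T) :
    0 ≤ x 1 ∧ x 1 ≤ 1 / 4 := by
  obtain ⟨hc, hne, hEq⟩ := hT
  have hcont : Continuous fun x : Fin 2 → ℝ => x 1 := continuous_apply 1
  have hb1 : ∀ b ∈ BB, b 1 = 0 ∨ b 1 = 1 := by
    intro b hb
    rw [mem_BB] at hb
    rcases hb with rfl | rfl | rfl | rfl <;> simp
  constructor
  · obtain ⟨m, hm, hmin⟩ := hc.exists_isMinOn hne hcont.continuousOn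
    have hm' := hm
    rw [hEq] at hm'
    simp only [mem_iUnion, mem_image, exists_prop] at hm'
    obtain ⟨b, hb, y, hy, hym⟩ := hm'
    have h1 : m 1 = (y 1 + b 1) / 5 := by rw [← hym, phi_eq]; rfl
    have h2 : (0 : ℝ) ≤ b 1 := by rcases hb1 b hb with h | h <;> rw [h] <;> norm_num
    have h3 : m 1 ≤ y 1 := hmin hy
    have h4 : m 1 ≤ x 1 := hmin hx
    linarith
  · obtain ⟨m, hm, hmax⟩ := hc.exists_isMaxOn hne hcont.continuousOn
    have hm' := hm
    rw [hEq] at hm'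
    simp only [mem_iUnion, mem_image, exists_prop] at hm'
    obtain ⟨b, hb, y, hy, hym⟩ := hm'
    have h1 : m 1 = (y 1 + b 1) / 5 := by rw [← hym, phi_eq]; rfl
    have h2 : (b 1 : ℝ) ≤ 1 := by rcases hb1 b hb with h | h <;> rw [h] <;> norm_num
    have h3 : y 1 ≤ m 1 := hmax hy
    have h4 : x 1 ≤ m 1 := hmax hx
    linarith

theorem mu_finite {F : Set ℝ} (hF : F.Countable) : mu {x | x 0 ∈ F} = 0 := by
  have h0 : Measurable fun x : Fin 2 → ℝ => x 0 := measurable_pi_apply 0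
  have hm : MeasurableSet {x : Fin 2 → ℝ | x 0 ∈ F} := h0 hF.measurableSet
  rw [mu, Measure.map_apply measurable_Ph hm]
  have h1 : Ph ⁻¹' {x | x 0 ∈ F} = F := by ext x; rfl
  rw [h1, nu_apply hF.measurableSet, measure_mono_null inter_subset_left (hF.measure_zero _),
    measure_mono_null inter_subset_left (hF.measure_zero _)]
  simp

theorem no_overlap {T : Set (Fin 2 → ℝ)} (hT : IsAttractor RR BB T) (b : Fin 2 → ℤ) (hb : b ∈ BB)
    (b' : Fin 2 → ℤ) (hb' : b' ∈ BB) (hne : b ≠ b') : mu (phi RR b '' T ∩ phi RR b' '' T) = 0 := by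
  have hF : ({1 / 4, 1 / 2, 3 / 4, 9 / 4, 5 / 2, 11 / 4} : Set ℝ).Countable := by
    refine Set.Finite.countable ?_
    simp
  refine measure_mono_null ?_ (mu_finite hF)
  rintro x ⟨⟨y, hy, hyx⟩, ⟨z, hz, hzx⟩⟩
  rw [phi_eq] at hyx hzx
  have a0 : x 0 = (y 0 + b 0) / 4 := by rw [← hyx]; rfl
  have a1 : x 1 = (y 1 + b 1) / 5 := by rw [← hyx]; rfl
  have c0 : x 0 = (z 0 + b' 0) / 4 := by rw [← hzx]; rfl
  have c1 : x 1 = (z 1 + b' 1) / 5 := by rw [← hzx]; rfl
  have y0 := first_mem hT hy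
  have y1 := second_mem hT hy
  have z0 := first_mem hT hz
  have z1 := second_mem hT hz
  rw [Set.mem_ofPred_eq]
  simp only [mem_insert_iff, mem_singleton_iff]
  rw [mem_BB] at hb hb'
  rcases hb with rfl | rfl | rfl | rfl <;> rcases hb' with rfl | rfl | rfl | rfl <;>
    first
    | exact absurd rfl hne
    | skip
  all_goals simp at a0 a1 c0 c1
  all_goals first
    | (exfalso; linarith)
    | (rcases y0 with ⟨p1, p2⟩ | ⟨p1, p2⟩ <;> rcases z0 with ⟨q1, q2⟩ | ⟨q1, q2⟩ <;>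
        first
        | (exfalso; linarith)
        | (left; linarith)
        | (right; left; linarith)
        | (right; right; left; linarith)
        | (right; right; right; left; linarith)
        | (right; right; right; right; left; linarith)
        | (right; right; right; right; right; linarith))

end Pool.Agent.Q167.HT
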