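import Mathlib

/-!
The uniform measure on `[0,1) ∪ [2,3)` as the invariant measure of the digit set `{0,1,8,9}` in base 4, and
the function `Y` reading the second digit in base 5.
-/

set_option autoImplicit false

open MeasureTheory Filter Topology Set
open scoped ENNReal Real

namespace Pool.Agent.Q167.HT

/-- the support of the first marginal -/
def Om : Set ℝ := Ico 0 1 ∪ Ico 2 3

theorem measurableSet_Om : MeasurableSet Om := measurableSet_Ico.union measurableSet_Ico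

/-- the uniform probability measure on `Om` -/
noncomputable def nu : Measure ℝ := (2⁻¹ : ℝ≥0∞) • volume.restrict Om

/-- the second digit -/
noncomputable def cc (x : ℝ) : ℝ := if 2 ≤ x then 1 else 0

/-- the first digit -/
noncomputable def aa (x : ℝ) : ℝ := ((⌊4 * (x - 2 * cc x)⌋ % 2 : ℤ) : ℝ)

/-- the shift -/
noncomputable def TT (x : ℝ) : ℝ := 4 * x - (aa x + 8 * cc x)

theorem measurable_cc : Measurable cc := Measurable.ite measurableSet_Ici measurable_const measurable_const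

theorem measurable_aa : Measurable aa := by
  have h1 : Measurable fun x : ℝ => ⌊4 * (x - 2 * cc x)⌋ :=
    Int.measurable_floor.comp ((measurable_id.sub (measurable_cc.const_mul 2)).const_mul 4)
  have h2 : Measurable fun n : ℤ => ((n % 2 : ℤ) : ℝ) := measurable_from_top
  exact h2.comp h1

theorem measurable_TT : Measurable TT :=
  (measurable_id.const_mul 4).sub (measurable_aa.add (measurable_cc.const_mul 8))

theorem decode {x : ℝ} (hx : x ∈ Om) {a c : ℤ} (ha : a = 0 ∨ a = 1) (hc : c = 0 ∨ c = 1) :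
    cc ((x + (a + 8 * c)) / 4) = c ∧ aa ((x + (a + 8 * c)) / 4) = a ∧ TT ((x + (a + 8 * c)) / 4) = x := by
  have hx0 : 0 ≤ x ∧ x < 3 := by
    rcases hx with h | h
    · exact ⟨h.1, by linarith [h.2]⟩
    · exact ⟨by linarith [h.1], h.2⟩
  have ha' : (0 : ℝ) ≤ a ∧ (a : ℝ) ≤ 1 := by
    rcases ha with h | h <;> rw [h] <;> norm_num
  have h1 : cc ((x + (a + 8 * c)) / 4) = c := by
    rw [cc]
    rcases hc with h | h
    · rw [if_neg (by rw [h]; push_cast; linarith [hx0.2, ha'.2]), h]; simp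
    · rw [if_pos (by rw [h]; push_cast; linarith [hx0.1, ha'.1]), h]; simp
  have h2 : aa ((x + (a + 8 * c)) / 4) = a := by
    rw [aa, h1]
    have e1 : 4 * ((x + (a + 8 * c)) / 4 - 2 * (c : ℝ)) = x + a := by ring
    rw [e1, Int.floor_add_intCast]
    rcases hx with h | h
    · have : ⌊x⌋ = 0 := Int.floor_eq_iff.2 ⟨by simpa using h.1, by simpa using h.2⟩
      rw [this]
      rcases ha with h' | h' <;> rw [h'] <;> norm_num
    · have : ⌊x⌋ = 2 := Int.floor_eq_iff.2 ⟨by simpa using h.1, by have := h.2; push_cast; linarith⟩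
      rw [this]
      rcases ha with h' | h' <;> rw [h'] <;> norm_num
  refine ⟨h1, h2, ?_⟩
  rw [TT, h1, h2]
  ring

/-- the second coordinate -/
noncomputable def YY (x : ℝ) : ℝ := ∑' k : ℕ, (1 / 5 : ℝ) ^ (k + 1) * cc (TT^[k] x)

theorem cc_le (x : ℝ) : 0 ≤ cc x ∧ cc x ≤ 1 := by
  rw [cc]; split_ifs <;> norm_num

theorem summable_YY (x : ℝ) : Summable fun k : ℕ => (1 / 5 : ℝ) ^ (k + 1) * cc (TT^[k] x) := by
  have h : Summable fun k : ℕ => (1 / 5 : ℝ) ^ (k + 1) :=
    (summable_nat_add_iff 1).2 (summable_geometric_of_lt_one (by norm_num) (by norm_num))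
  refine Summable.of_nonneg_of_le (fun k => mul_nonneg (by positivity) (cc_le _).1) (fun k => ?_) h
  exact mul_le_of_le_one_right (by positivity) (cc_le _).2

theorem measurable_YY : Measurable YY := by
  have h : ∀ n : ℕ, Measurable fun x => ∑ k ∈ Finset.range n, (1 / 5 : ℝ) ^ (k + 1) * cc (TT^[k] x) := fun n =>
    Finset.measurable_sum _ fun k _ => (measurable_cc.comp (measurable_TT.iterate k)).const_mul _
  refine measurable_of_tendsto_metrizable h ?_
  rw [tendsto_pi_nhds]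
  intro x
  exact (summable_YY x).hasSum.tendsto_sum_nat

theorem YY_eq {x : ℝ} (hx : x ∈ Om) {a c : ℤ} (ha : a = 0 ∨ a = 1) (hc : c = 0 ∨ c = 1) :
    YY ((x + (a + 8 * c)) / 4) = (YY x + c) / 5 := by
  obtain ⟨h1, h2, h3⟩ := decode hx ha hc
  rw [YY, (summable_YY _).tsum_eq_zero_add]
  simp only [Function.iterate_zero, id, Function.iterate_succ_apply]
  rw [h1, h3]
  have : ∀ k : ℕ, (1 / 5 : ℝ) ^ (k + 1 + 1) * cc (TT^[k] x) = (1 / 5) * ((1 / 5 : ℝ) ^ (k + 1) * cc (TT^[k] x)) := by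
    intro k; ring
  simp_rw [this]
  rw [tsum_mul_left, ← YY]
  ring

/-! ### the refinement equation on the line -/

theorem vol_pre (A : Set ℝ) (p q t : ℝ) :
    volume ((fun x : ℝ => (x + t) / 4) ⁻¹' A ∩ Ico p q) = 4 * volume (A ∩ Ico ((p + t) / 4) ((q + t) / 4)) := by
  have h1 : (fun x : ℝ => (x + t) / 4) ⁻¹' A ∩ Ico p q =
      (fun x : ℝ => x + t) ⁻¹' ((fun x : ℝ => x * 4⁻¹) ⁻¹' (A ∩ Ico ((p + t) / 4) ((q + t) / 4))) := by
    ext x
    simp only [mem_inter_iff, mem_preimage, mem_Ico, div_eq_mul_inv]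
    constructor
    · rintro ⟨h1, h2, h3⟩
      exact ⟨h1, by linarith, by linarith⟩
    · rintro ⟨h1, h2, h3⟩
      exact ⟨h1, by linarith, by linarith⟩
  rw [h1, measure_preimage_add_right, Real.volume_preimage_mul_right (by norm_num)]
  norm_num

theorem vol_split (A : Set ℝ) {p q r : ℝ} (h1 : p ≤ q) (h2 : q ≤ r) :
    volume (A ∩ Ico p r) = volume (A ∩ Ico p q) + volume (A ∩ Ico q r) := by
  have h : A ∩ Ico p r = (A ∩ Ico p r) ∩ Iio q ∪ (A ∩ Ico p r) \ Iio q := (inter_union_sdiff _ _).symm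
  rw [← measure_inter_add_sdiff (A ∩ Ico p r) (measurableSet_Iio (a := q))]
  congr 2
  · ext x
    simp only [mem_inter_iff, mem_Ico, mem_Iio]
    constructor
    · rintro ⟨⟨h3, h4, h5⟩, h6⟩; exact ⟨h3, h4, h6⟩
    · rintro ⟨h3, h4, h5⟩; exact ⟨⟨h3, h4, by linarith⟩, h5⟩
  · ext x
    simp only [mem_inter_iff, mem_Ico, mem_Iio, Set.mem_sdiff, not_lt]
    constructor
    · rintro ⟨⟨h3, h4, h5⟩, h6⟩; exact ⟨h3, h6, h5⟩
    · rintro ⟨h3, h4, h5⟩; exact ⟨⟨h3, by linarith, h5⟩, h4⟩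

theorem vol_Om (A : Set ℝ) : volume (A ∩ Om) = volume (A ∩ Ico 0 1) + volume (A ∩ Ico 2 3) := by
  rw [Om, ← measure_inter_add_sdiff (A ∩ (Ico 0 1 ∪ Ico 2 3)) (measurableSet_Iio (a := (2 : ℝ)))]
  congr 2
  · ext x
    simp only [mem_inter_iff, mem_Ico, mem_Iio, mem_union]
    constructor
    · rintro ⟨⟨h1, h2 | h2⟩, h3⟩
      · exact ⟨h1, h2⟩
      · linarith [h2.1]
    · rintro ⟨h1, h2⟩
      exact ⟨⟨h1, Or.inl h2⟩, by linarith [h2.2]⟩
  · ext x
    simp only [mem_inter_iff, mem_Ico, mem_Iio, mem_union, Set.mem_sdiff, not_lt]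
    constructor
    · rintro ⟨⟨h1, h2 | h2⟩, h3⟩
      · linarith [h2.2]
      · exact ⟨h1, h2⟩
    · rintro ⟨h1, h2⟩
      exact ⟨⟨h1, Or.inr h2⟩, h2.1⟩

theorem nu_apply {A : Set ℝ} (hA : MeasurableSet A) :
    nu A = 2⁻¹ * (volume (A ∩ Ico 0 1) + volume (A ∩ Ico 2 3)) := by
  rw [nu, Measure.smul_apply, Measure.restrict_apply hA, vol_Om, smul_eq_mul]

instance : IsProbabilityMeasure nu := by
  refine ⟨?_⟩
  rw [nu_apply MeasurableSet.univ, univ_inter, univ_inter, Real.volume_Ico, Real.volume_Ico]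
  norm_num
  exact ENNReal.inv_mul_cancel (by norm_num) (by norm_num)

theorem measurable_s (t : ℝ) : Measurable fun x : ℝ => (x + t) / 4 := by fun_prop

theorem nu_map_apply {A : Set ℝ} (hA : MeasurableSet A) (t : ℝ) :
    nu.map (fun x => (x + t) / 4) A = 2⁻¹ * (4 * volume (A ∩ Ico (t / 4) ((1 + t) / 4)) +
      4 * volume (A ∩ Ico ((2 + t) / 4) ((3 + t) / 4))) := by
  rw [Measure.map_apply (measurable_s t) hA, nu_apply (measurable_s t hA), vol_pre, vol_pre, zero_add]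

theorem nu_refine : nu = (4⁻¹ : ℝ≥0∞) • (nu.map (fun x => (x + 0) / 4) + nu.map (fun x => (x + 1) / 4) +
    nu.map (fun x => (x + 8) / 4) + nu.map (fun x => (x + 9) / 4)) := by
  ext A hA
  rw [Measure.smul_apply, Measure.add_apply, Measure.add_apply, Measure.add_apply, nu_map_apply hA,
    nu_map_apply hA, nu_map_apply hA, nu_map_apply hA, nu_apply hA, smul_eq_mul]
  rw [vol_split A (p := 0) (q := 1 / 2) (r := 1) (by norm_num) (by norm_num),
    vol_split A (p := 0) (q := 1 / 4) (r := 1 / 2) (by norm_num) (by norm_num),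
    vol_split A (p := 1 / 2) (q := 3 / 4) (r := 1) (by norm_num) (by norm_num),
    vol_split A (p := 2) (q := 5 / 2) (r := 3) (by norm_num) (by norm_num),
    vol_split A (p := 2) (q := 9 / 4) (r := 5 / 2) (by norm_num) (by norm_num),
    vol_split A (p := 5 / 2) (q := 11 / 4) (r := 3) (by norm_num) (by norm_num)]
  norm_num
  generalize volume (A ∩ Ico (0 : ℝ) (1 / 4)) = v1
  generalize volume (A ∩ Ico (1 / 4 : ℝ) (1 / 2)) = v2
  generalize volume (A ∩ Ico (1 / 2 : ℝ) (3 / 4)) = v3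
  generalize volume (A ∩ Ico (3 / 4 : ℝ) 1) = v4
  generalize volume (A ∩ Ico (2 : ℝ) (9 / 4)) = v5
  generalize volume (A ∩ Ico (9 / 4 : ℝ) (5 / 2)) = v6
  generalize volume (A ∩ Ico (5 / 2 : ℝ) (11 / 4)) = v7
  generalize volume (A ∩ Ico (11 / 4 : ℝ) 3) = v8
  have h4 : (4⁻¹ : ℝ≥0∞) * 4 = 1 := ENNReal.inv_mul_cancel (by norm_num) (by norm_num)
  calc 2⁻¹ * (v1 + v2 + (v3 + v4) + (v5 + v6 + (v7 + v8)))
      = (4⁻¹ * 4) * (2⁻¹ * (v1 + v2 + (v3 + v4) + (v5 + v6 + (v7 + v8)))) := by rw [h4, one_mul]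
    _ = _ := by ring

end Pool.Agent.Q167.HT
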