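import Pool.Agent.Q167.HT.Plane

/-!
The pair `R = diag(4,5)`, `B = {(0,0),(1,0),(8,1),(9,1)}`: simple digits, spectral self-affine measure, no
Hadamard triple.
-/

set_option autoImplicit false

open MeasureTheory Filter Topology Set Matrix
open scoped ENNReal Real ComplexConjugate

namespace Pool.Agent.Q167.HT

/-- the expanding matrix -/
def RR : Matrix (Fin 2) (Fin 2) ℤ := !![4, 0; 0, 5]

/-- the digits -/
def BB : Finset (Fin 2 → ℤ) := {![0, 0], ![1, 0], ![8, 1], ![9, 1]}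

theorem card_BB : BB.card = 4 := by decide

theorem mem_BB {b : Fin 2 → ℤ} : b ∈ BB ↔ b = ![0, 0] ∨ b = ![1, 0] ∨ b = ![8, 1] ∨ b = ![9, 1] := by
  simp [BB]

theorem expanding (z : ℂ) (hz : (RR.map (Int.cast : ℤ → ℂ)).charpoly.IsRoot z) : 1 < ‖z‖ := by
  rw [Polynomial.IsRoot, Matrix.charpoly_fin_two] at hz
  simp [RR, Matrix.trace_fin_two, Matrix.det_fin_two] at hz
  have h : (z - 4) * (z - 5) = 0 := by linear_combination hz
  rcases mul_eq_zero.1 h with h | h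
  · rw [sub_eq_zero.1 h]; norm_num
  · rw [sub_eq_zero.1 h]; norm_num

theorem simple (b : Fin 2 → ℤ) (hb : b ∈ BB) (b' : Fin 2 → ℤ) (hb' : b' ∈ BB) (hne : b ≠ b') :
    ¬ ∃ v : Fin 2 → ℤ, RR *ᵥ v = b - b' := by
  rintro ⟨v, hv⟩
  have h0 := congrFun hv 0
  have h1 := congrFun hv 1
  simp [RR, Matrix.mulVec, dotProduct, Fin.sum_univ_two] at h0 h1
  rw [mem_BB] at hb hb'
  rcases hb with rfl | rfl | rfl | rfl <;> rcases hb' with rfl | rfl | rfl | rfl <;>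
    first
    | exact absurd rfl hne
    | (simp at h0 h1; omega)

theorem det_RR : RR.det = 20 := by
  rw [Matrix.det_fin_two]; simp [RR]

theorem zero_mem : (0 : Fin 2 → ℤ) ∈ BB := by
  rw [mem_BB]; left; ext i; fin_cases i <;> rfl

theorem closure_top :
    AddSubgroup.closure {v : Fin 2 → ℤ | ∃ k : ℕ, ∃ b ∈ BB, v = (RR ^ k) *ᵥ b} = ⊤ := by
  set S := AddSubgroup.closure {v : Fin 2 → ℤ | ∃ k : ℕ, ∃ b ∈ BB, v = (RR ^ k) *ᵥ b} with hS
  have hb : ∀ b ∈ BB, b ∈ S := fun b hb => AddSubgroup.subset_closure ⟨0, b, hb, by simp⟩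
  have h1 : (![1, 0] : Fin 2 → ℤ) ∈ S := hb _ (by rw [mem_BB]; simp)
  have h2 : (![8, 1] : Fin 2 → ℤ) ∈ S := hb _ (by rw [mem_BB]; simp)
  rw [eq_top_iff]
  intro v _
  have h3 : v = (v 0 - 8 * v 1) • (![1, 0] : Fin 2 → ℤ) + v 1 • (![8, 1] : Fin 2 → ℤ) := by
    ext i
    fin_cases i
    · simp; ring
    · simp
  rw [h3]
  exact S.add_mem (S.zsmul_mem h1 _) (S.zsmul_mem h2 _)

theorem inv_RR : (RR.map (Int.cast : ℤ → ℝ))⁻¹ = !![1 / 4, 0; 0, 1 / 5] := by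
  refine Matrix.inv_eq_right_inv ?_
  ext i j
  fin_cases i <;> fin_cases j <;> simp [RR, Matrix.mul_apply, Fin.sum_univ_two]

theorem tau_eq (b : Fin 2 → ℤ) :
    (fun x : Fin 2 → ℝ => (RR.map (Int.cast : ℤ → ℝ))⁻¹ *ᵥ (x + fun i => (b i : ℝ))) = tau (b 0) (b 1) := by
  funext x
  rw [inv_RR]
  ext i
  fin_cases i
  · simp [tau, Matrix.mulVec, dotProduct, Fin.sum_univ_two]; ring
  · simp [tau, Matrix.mulVec, dotProduct, Fin.sum_univ_two]; ring

theorem self_affine : mu = ((BB.card : ℝ≥0∞)⁻¹) • ∑ b ∈ BB,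
    mu.map (fun x => (RR.map (Int.cast : ℤ → ℝ))⁻¹ *ᵥ (x + fun i => (b i : ℝ))) := by
  simp_rw [tau_eq]
  rw [card_BB, BB, Finset.sum_insert (by decide), Finset.sum_insert (by decide), Finset.sum_insert (by decide),
    Finset.sum_singleton]
  have h := mu_refine
  simp only [Matrix.cons_val_zero, Matrix.cons_val_one]
  norm_num
  rw [add_assoc, add_assoc, smul_add, smul_add, smul_add] at h
  exact h

/-! ### the spectrum -/

/-- the spectrum -/
def Lam : Set (Fin 2 → ℝ) := {l | l 1 = 0 ∧ ∃ n : ℤ, l 0 = n ∨ l 0 = n + 1 / 4}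

theorem ee_mu (t : ℝ) : ∫ x, ee t (x 0) ∂mu = ∫ x, ee t x ∂nu := by
  have h0 : Measurable fun x : Fin 2 → ℝ => x 0 := measurable_pi_apply 0
  rw [mu, integral_map measurable_Ph.aemeasurable]
  · rfl
  · exact ((continuous_ee t).measurable.comp h0).aestronglyMeasurable

theorem ortho (l : Fin 2 → ℝ) (hl : l ∈ Lam) (l' : Fin 2 → ℝ) (hl' : l' ∈ Lam) :
    (l = l' → ∫ x, Complex.exp (2 * π * Complex.I * ((∑ i, (l i - l' i) * x i : ℝ) : ℂ)) ∂mu = 1) ∧
    (l ≠ l' → ∫ x, Complex.exp (2 * π * Complex.I * ((∑ i, (l i - l' i) * x i : ℝ) : ℂ)) ∂mu = 0) := by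
  have h1 : ∀ x : Fin 2 → ℝ, Complex.exp (2 * π * Complex.I * ((∑ i, (l i - l' i) * x i : ℝ) : ℂ)) =
      ee (l 0 - l' 0) (x 0) := by
    intro x
    rw [Fin.sum_univ_two, hl.1, hl'.1, sub_self, zero_mul, add_zero, ee]
  simp_rw [h1]
  rw [ee_mu]
  constructor
  · rintro rfl
    rw [sub_self]
    simp [ee]
  · intro hne
    have h0 : l 0 ≠ l' 0 := by
      intro h
      apply hne
      ext i
      fin_cases i
      · exact h
      · exact hl.1.trans hl'.1.symm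
    obtain ⟨n, hn⟩ := hl.2
    obtain ⟨n', hn'⟩ := hl'.2
    refine integral_ee_nu ?_
    have key : ∀ m : ℤ, ee ((m : ℝ) + 1 / 4) 2 = -1 := fun m => by rw [ee_add, ee_int, ee_quarter]; ring
    have key' : ∀ m : ℤ, ee ((m : ℝ) - 1 / 4) 2 = -1 := fun m => by
      have h5 : ee ((m : ℝ) - 1 / 4) 2 * ee (1 / 4) 2 = 1 := by
        rw [← ee_add, sub_add_cancel, ee_int]
      rw [ee_quarter] at h5
      linear_combination -h5
    rcases hn with hn | hn <;> rcases hn' with hn' | hn'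
    · left
      refine ⟨n - n', ?_, by rw [hn, hn']; push_cast; ring⟩
      intro h
      apply h0
      rw [hn, hn', sub_eq_zero.1 h]
    · right
      rw [hn, hn', show (n : ℝ) - (n' + 1 / 4) = ((n - n' : ℤ) : ℝ) - 1 / 4 by push_cast; ring]
      exact key' _
    · right
      rw [hn, hn', show (n : ℝ) + 1 / 4 - n' = ((n - n' : ℤ) : ℝ) + 1 / 4 by push_cast; ring]
      exact key _
    · left
      refine ⟨n - n', ?_, by rw [hn, hn']; push_cast; ring⟩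
      intro h
      apply h0
      rw [hn, hn', sub_eq_zero.1 h]

theorem complete (f : (Fin 2 → ℝ) → ℂ) (hf : MemLp f 2 mu)
    (h : ∀ l ∈ Lam, ∫ x, f x * Complex.exp (-(2 * π * Complex.I * ((∑ i, l i * x i : ℝ) : ℂ))) ∂mu = 0) :
    f =ᵐ[mu] 0 := by
  have hG : MemLp (f ∘ Ph) 2 nu := (memLp_map_measure_iff hf.1 measurable_Ph.aemeasurable).1 hf
  have key : ∀ t : ℝ, (∃ n : ℤ, t = n ∨ t = n + 1 / 4) → ∫ x, (f ∘ Ph) x * ee (-t) x ∂nu = 0 := by
    intro t ht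
    have h1 := h ![t, 0] ⟨rfl, ht⟩
    have h2 : ∀ x : Fin 2 → ℝ, Complex.exp (-(2 * π * Complex.I * ((∑ i, (![t, 0] : Fin 2 → ℝ) i * x i : ℝ) : ℂ))) =
        ee (-t) (x 0) := by
      intro x
      rw [Fin.sum_univ_two, ee]
      simp
    simp_rw [h2] at h1
    have h0 : Measurable fun x : Fin 2 → ℝ => x 0 := measurable_pi_apply 0
    rw [mu, integral_map measurable_Ph.aemeasurable] at h1
    · exact h1
    · exact hf.1.mul ((continuous_ee (-t)).measurable.comp h0).aestronglyMeasurable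
  have h3 := complete_nu hG (fun n => key n ⟨n, Or.inl rfl⟩) (fun n => key (n + 1 / 4) ⟨n, Or.inr rfl⟩)
  have h4 : f =ᵐ[mu] hf.1.mk f := hf.1.ae_eq_mk
  have h5 : ∀ᵐ x ∂nu, f (Ph x) = hf.1.mk f (Ph x) := ae_of_ae_map measurable_Ph.aemeasurable h4
  have h6 : ∀ᵐ y ∂mu, hf.1.mk f y = 0 := by
    refine (ae_map_iff measurable_Ph.aemeasurable (p := fun y => hf.1.mk f y = 0)
      (hf.1.stronglyMeasurable_mk.measurable (measurableSet_singleton 0))).2 ?_
    filter_upwards [h3, h5] with x hx1 hx2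
    rw [← hx2]; exact hx1
  filter_upwards [h4, h6] with y hy1 hy2
  rw [hy1, hy2]; rfl

/-! ### there is no Hadamard triple -/

theorem mask_zero {d0 d1 : ℤ}
    (h : ∑ b ∈ BB, Complex.exp (2 * π * Complex.I *
      ((∑ i, ((RR.map (Int.cast : ℤ → ℝ))⁻¹ *ᵥ (fun j => (b j : ℝ))) i * ((![d0, d1] : Fin 2 → ℤ) i : ℝ) : ℝ) : ℂ)) = 0) :
    ∃ k : ℤ, d0 = 4 * k + 2 := by
  set z : ℂ := Complex.exp (2 * π * Complex.I * (d0 / 4)) with hz
  set w : ℂ := Complex.exp (2 * π * Complex.I * (d1 / 5)) with hw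
  have hz4 : z ^ 4 = 1 := by
    rw [hz, ← Complex.exp_nat_mul, show ((4 : ℕ) : ℂ) * (2 * π * Complex.I * (d0 / 4)) = (d0 : ℂ) * (2 * π * Complex.I) by
      push_cast; ring, Complex.exp_int_mul_two_pi_mul_I]
  have hw5 : w ^ 5 = 1 := by
    rw [hw, ← Complex.exp_nat_mul, show ((5 : ℕ) : ℂ) * (2 * π * Complex.I * (d1 / 5)) = (d1 : ℂ) * (2 * π * Complex.I) by
      push_cast; ring, Complex.exp_int_mul_two_pi_mul_I]
  have hterm : ∀ t c : ℕ, ∀ b : Fin 2 → ℤ, b = ![(t : ℤ), (c : ℤ)] → Complex.exp (2 * π * Complex.I *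
      ((∑ i, ((RR.map (Int.cast : ℤ → ℝ))⁻¹ *ᵥ (fun j => (b j : ℝ))) i * ((![d0, d1] : Fin 2 → ℤ) i : ℝ) : ℝ) : ℂ)) =
      z ^ t * w ^ c := by
    intro t c b hb
    rw [hb, inv_RR, hz, hw, ← Complex.exp_nat_mul, ← Complex.exp_nat_mul, ← Complex.exp_add]
    congr 1
    simp [Matrix.mulVec, dotProduct, Fin.sum_univ_two]
    ring
  rw [BB, Finset.sum_insert (by decide), Finset.sum_insert (by decide), Finset.sum_insert (by decide),
    Finset.sum_singleton, hterm 0 0 _ (by simp), hterm 1 0 _ (by simp), hterm 8 1 _ (by simp), hterm 9 1 _ (by simp)] at h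
  have h1 : (1 + z) * (1 + w) = 0 := by
    linear_combination h - w * (z ^ 4 + 1) * hz4 - z * w * (z ^ 4 + 1) * hz4
  rcases mul_eq_zero.1 h1 with h2 | h2
  · have hz1 : z = Complex.exp (π * Complex.I) := by
      rw [Complex.exp_pi_mul_I]; linear_combination h2
    rw [hz, Complex.exp_eq_exp_iff_exists_int] at hz1
    obtain ⟨n, hn⟩ := hz1
    refine ⟨n, ?_⟩
    have h3 : (2 * π * Complex.I : ℂ) ≠ 0 := Complex.two_pi_I_ne_zero
    have h4 : (2 * π * Complex.I : ℂ) * (d0 - (4 * n + 2)) = 0 := by linear_combination 4 * hn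
    rcases mul_eq_zero.1 h4 with h5 | h5
    · exact absurd h5 h3
    · have : (d0 : ℂ) = ((4 * n + 2 : ℤ) : ℂ) := by push_cast; linear_combination h5
      exact_mod_cast this
  · exfalso
    have hw1 : w = -1 := by linear_combination h2
    rw [hw1] at hw5
    norm_num at hw5

theorem no_triple : ¬ ∃ L : Finset (Fin 2 → ℤ), L.card = BB.card ∧
    ∀ l ∈ L, ∀ l' ∈ L,
      (l = l' → ∑ b ∈ BB, Complex.exp (2 * π * Complex.I *
          ((∑ i, ((RR.map (Int.cast : ℤ → ℝ))⁻¹ *ᵥ (fun j => (b j : ℝ))) i * ((l i : ℝ) - (l' i : ℝ)) : ℝ) : ℂ))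
          = (BB.card : ℂ)) ∧
      (l ≠ l' → ∑ b ∈ BB, Complex.exp (2 * π * Complex.I *
          ((∑ i, ((RR.map (Int.cast : ℤ → ℝ))⁻¹ *ᵥ (fun j => (b j : ℝ))) i * ((l i : ℝ) - (l' i : ℝ)) : ℝ) : ℂ))
          = 0) := by
  rintro ⟨L, hL, h⟩
  have h3 : 2 < L.card := by rw [hL, card_BB]; norm_num
  obtain ⟨a, b, c, ha, hb, hc, hab, hac, hbc⟩ := Finset.two_lt_card_iff.1 h3
  have key : ∀ l ∈ L, ∀ l' ∈ L, l ≠ l' → ∃ k : ℤ, l 0 - l' 0 = 4 * k + 2 := by
    intro l hl l' hl' hne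
    refine mask_zero (d0 := l 0 - l' 0) (d1 := l 1 - l' 1) ?_
    rw [← (h l hl l' hl').2 hne]
    refine Finset.sum_congr rfl fun b _ => ?_
    rw [Fin.sum_univ_two, Fin.sum_univ_two]
    simp
  obtain ⟨k1, h1⟩ := key a ha b hb hab
  obtain ⟨k2, h2⟩ := key b hb c hc hbc
  obtain ⟨k3, h3'⟩ := key a ha c hc hac
  omega

end Pool.Agent.Q167.HT
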