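import Pool.Agent.Q167.HT.Line

/-!
The self-affine measure in the plane and its spectrum.
-/

set_option autoImplicit false

open MeasureTheory Filter Topology Set Matrix
open scoped ENNReal Real ComplexConjugate

namespace Pool.Agent.Q167.HT

/-- the graph map -/
noncomputable def Ph (x : ℝ) : Fin 2 → ℝ := ![x, YY x]

theorem measurable_Ph : Measurable Ph := by
  refine measurable_pi_iff.2 fun i => ?_
  fin_cases i
  · exact measurable_id
  · exact measurable_YY

/-- the self-affine measure -/
noncomputable def mu : Measure (Fin 2 → ℝ) := nu.map Ph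

instance : IsProbabilityMeasure mu := Measure.isProbabilityMeasure_map measurable_Ph.aemeasurable

/-- the contraction with digit `(t, c)` -/
noncomputable def tau (t c : ℝ) (x : Fin 2 → ℝ) : Fin 2 → ℝ := ![(x 0 + t) / 4, (x 1 + c) / 5]

theorem measurable_tau (t c : ℝ) : Measurable (tau t c) := by
  refine measurable_pi_iff.2 fun i => ?_
  fin_cases i
  · have h : Measurable fun x : Fin 2 → ℝ => x 0 := measurable_pi_apply 0
    exact (h.add_const t).div_const 4
  · have h : Measurable fun x : Fin 2 → ℝ => x 1 := measurable_pi_apply 1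
    exact (h.add_const c).div_const 5

theorem nu_compl : nu Omᶜ = 0 := by
  rw [nu, Measure.smul_apply, Measure.restrict_apply measurableSet_Om.compl, compl_inter_self]
  simp

theorem ae_Om : ∀ᵐ x ∂nu, x ∈ Om := nu_compl

theorem map_eq {a c : ℤ} (ha : a = 0 ∨ a = 1) (hc : c = 0 ∨ c = 1) :
    mu.map (tau (a + 8 * c) c) = (nu.map fun x : ℝ => (x + (a + 8 * c)) / 4).map Ph := by
  rw [mu, Measure.map_map (measurable_tau _ _) measurable_Ph, Measure.map_map measurable_Ph (measurable_s _)]
  refine Measure.map_congr ?_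
  filter_upwards [ae_Om] with x hx
  simp only [Function.comp, Ph]
  rw [YY_eq hx ha hc, tau]
  rfl

theorem mu_refine : mu = (4⁻¹ : ℝ≥0∞) • (mu.map (tau 0 0) + mu.map (tau 1 0) + mu.map (tau 8 1) + mu.map (tau 9 1)) := by
  have h1 := map_eq (a := 0) (c := 0) (Or.inl rfl) (Or.inl rfl)
  have h2 := map_eq (a := 1) (c := 0) (Or.inr rfl) (Or.inl rfl)
  have h3 := map_eq (a := 0) (c := 1) (Or.inl rfl) (Or.inr rfl)
  have h4 := map_eq (a := 1) (c := 1) (Or.inr rfl) (Or.inr rfl)
  norm_num at h1 h2 h3 h4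
  rw [h1, h2, h3, h4, ← Measure.map_add _ _ measurable_Ph, ← Measure.map_add _ _ measurable_Ph,
    ← Measure.map_add _ _ measurable_Ph, ← Measure.map_smul]
  have h := nu_refine
  simp only [add_zero] at h
  rw [← h, mu]

/-! ### integrals against `nu` -/

theorem int_nu {g : ℝ → ℂ} (hg : Integrable g nu) :
    ∫ x, g x ∂nu = 2⁻¹ * ∫ x in (0 : ℝ)..1, (g x + g (x + 2)) := by
  have h1 : IntegrableOn g Om := by
    rw [nu, integrable_smul_measure (by norm_num) (by norm_num)] at hg
    exact hg
  have h2 : IntegrableOn g (Ico 0 1) := h1.mono_set subset_union_left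
  have h3 : IntegrableOn g (Ico 2 3) := h1.mono_set subset_union_right
  have i1 : IntervalIntegrable g volume 0 1 := by
    rw [intervalIntegrable_iff_integrableOn_Ico_of_le zero_le_one]; exact h2
  have i2 : IntervalIntegrable g volume 2 3 := by
    rw [intervalIntegrable_iff_integrableOn_Ico_of_le (by norm_num)]; exact h3
  have i3 : IntervalIntegrable (fun x => g (x + 2)) volume 0 1 := by
    have := i2.comp_add_right 2
    norm_num at this
    exact this
  rw [nu, integral_smul_measure, Om, setIntegral_union _ measurableSet_Ico h2 h3,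
    intervalIntegral.integral_add i1 i3, intervalIntegral.integral_comp_add_right (fun x => g x) 2,
    intervalIntegral.integral_of_le zero_le_one, intervalIntegral.integral_of_le (by norm_num),
    ← integral_Ico_eq_integral_Ioc, ← integral_Ico_eq_integral_Ioc]
  · norm_num
    rw [← mul_add]
  · rw [disjoint_left]
    intro x h4 h5
    linarith [h4.2, h5.1]

/-- the exponential -/
noncomputable def ee (t x : ℝ) : ℂ := Complex.exp (2 * π * Complex.I * ((t * x : ℝ) : ℂ))

theorem norm_ee (t x : ℝ) : ‖ee t x‖ = 1 := by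
  rw [ee, show 2 * (π : ℂ) * Complex.I * ((t * x : ℝ) : ℂ) = ((2 * π * (t * x) : ℝ) : ℂ) * Complex.I by
    push_cast; ring]
  exact Complex.norm_exp_ofReal_mul_I _

theorem continuous_ee (t : ℝ) : Continuous (ee t) := by unfold ee; fun_prop

theorem ee_add (s t x : ℝ) : ee (s + t) x = ee s x * ee t x := by
  rw [ee, ee, ee, ← Complex.exp_add]
  congr 1
  push_cast
  ring

theorem ee_two (t x : ℝ) : ee t (x + 2) = ee t x * ee t 2 := by
  rw [ee, ee, ee, ← Complex.exp_add]
  congr 1
  push_cast
  ring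

theorem ee_int (n : ℤ) : ee n 2 = 1 := by
  rw [ee, show 2 * (π : ℂ) * Complex.I * (((n : ℝ) * 2 : ℝ) : ℂ) = ((2 * n : ℤ) : ℂ) * (2 * π * Complex.I) by
    push_cast; ring, Complex.exp_int_mul_two_pi_mul_I]

theorem ee_quarter : ee (1 / 4) 2 = -1 := by
  rw [ee, show 2 * (π : ℂ) * Complex.I * ((((1 : ℝ) / 4) * 2 : ℝ) : ℂ) = π * Complex.I by
    push_cast; ring, Complex.exp_pi_mul_I]

theorem integral_ee {t : ℝ} (ht : t ≠ 0) : ∫ x in (0 : ℝ)..1, ee t x = (ee t 1 - 1) / (2 * π * Complex.I * t) := by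
  have hc : (2 * π * Complex.I * t : ℂ) ≠ 0 := by
    have : (π : ℂ) ≠ 0 := by exact_mod_cast Real.pi_ne_zero
    have : (t : ℂ) ≠ 0 := by exact_mod_cast ht
    simp [*]
  have h1 : ∀ x : ℝ, ee t x = Complex.exp ((2 * π * Complex.I * t : ℂ) * x) := by
    intro x; rw [ee]; congr 1; push_cast; ring
  simp_rw [h1]
  rw [integral_exp_mul_complex hc]
  simp

theorem integral_ee_nu {t : ℝ} (h : (∃ n : ℤ, n ≠ 0 ∧ t = n) ∨ ee t 2 = -1) : ∫ x, ee t x ∂nu = 0 := by
  have hi : Integrable (ee t) nu :=
    ⟨(continuous_ee t).aestronglyMeasurable, HasFiniteIntegral.of_bounded (C := 1)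
      (Eventually.of_forall fun x => (norm_ee t x).le)⟩
  rw [int_nu hi]
  simp_rw [ee_two]
  rcases h with ⟨n, hn, rfl⟩ | h
  · rw [ee_int]
    have h1 : ∀ x : ℝ, ee n x + ee n x * 1 = 2 * ee n x := fun x => by ring
    simp_rw [h1]
    rw [intervalIntegral.integral_const_mul, integral_ee (by exact_mod_cast hn)]
    have h2 : ee n 1 = 1 := by
      rw [ee, show 2 * (π : ℂ) * Complex.I * (((n : ℝ) * 1 : ℝ) : ℂ) = (n : ℂ) * (2 * π * Complex.I) by
        push_cast; ring, Complex.exp_int_mul_two_pi_mul_I]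
    rw [h2]; simp
  · rw [h]
    simp

/-! ### completeness -/

theorem fourier_zero {P : ℝ → ℂ} (hP : MemLp P 2 (volume.restrict (Ioc 0 1)))
    (h : ∀ n : ℤ, ∫ x in (0 : ℝ)..1, P x * ee (-n) x = 0) : ∀ᵐ x ∂(volume.restrict (Ioc (0 : ℝ) 1)), P x = 0 := by
  have hab : (0 : ℝ) < 1 := zero_lt_one
  have h1 := hasSum_sq_fourierCoeffOn hab hP
  have h2 : ∀ n : ℤ, fourierCoeffOn hab P n = 0 := by
    intro n
    rw [fourierCoeffOn_eq_integral]
    have h3 : ∀ x : ℝ, fourier (-n) (x : AddCircle ((1 : ℝ) - 0)) • P x = P x * ee (-n) x := by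
      intro x
      rw [fourier_coe_apply, smul_eq_mul, mul_comm, ee]
      congr 2
      push_cast
      ring
    simp_rw [h3]
    rw [h n]; simp
  simp_rw [h2] at h1
  have h4 : ∫ x in (0 : ℝ)..1, ‖P x‖ ^ 2 = 0 := by
    have h0 : HasSum (fun _ : ℤ => ‖(0 : ℂ)‖ ^ 2) (0 : ℝ) := by simp
    have := h1.unique h0
    rw [smul_eq_mul, mul_eq_zero] at this
    rcases this with h | h
    · norm_num at h
    · exact h
  rw [intervalIntegral.integral_of_le hab.le,
    integral_eq_zero_iff_of_nonneg (fun x => by positivity)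
      ((memLp_two_iff_integrable_sq_norm hP.1).1 hP)] at h4
  filter_upwards [h4] with x hx
  simpa using hx

theorem complete_nu {G : ℝ → ℂ} (hG : MemLp G 2 nu) (h1 : ∀ n : ℤ, ∫ x, G x * ee (-n) x ∂nu = 0)
    (h2 : ∀ n : ℤ, ∫ x, G x * ee (-(n + 1 / 4)) x ∂nu = 0) : ∀ᵐ x ∂nu, G x = 0 := by
  have hG0 : MemLp G 2 (volume.restrict Om) := by
    have h := hG.smul_measure (c := 2) (by norm_num)
    rw [nu, smul_smul, ENNReal.mul_inv_cancel (by norm_num) (by norm_num), one_smul] at h
    exact h
  have hG1 : MemLp G 2 (volume.restrict (Ioc 0 1)) := by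
    rw [← restrict_Ico_eq_restrict_Ioc]
    exact hG0.mono_measure (Measure.restrict_mono subset_union_left le_rfl)
  have hG2 : MemLp G 2 (volume.restrict (Ico 2 3)) :=
    hG0.mono_measure (Measure.restrict_mono subset_union_right le_rfl)
  have mp : MeasurePreserving (fun x : ℝ => x + 2) (volume.restrict (Ico 0 1)) (volume.restrict (Ico 2 3)) := by
    have := (measurePreserving_add_right (volume : Measure ℝ) 2).restrict_preimage (measurableSet_Ico (a := 2) (b := 3))
    have e : (fun x : ℝ => x + 2) ⁻¹' Ico 2 3 = Ico 0 1 := by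
      ext x
      simp only [mem_preimage, mem_Ico]
      constructor
      · rintro ⟨h1, h2⟩; exact ⟨by linarith, by linarith⟩
      · rintro ⟨h1, h2⟩; exact ⟨by linarith, by linarith⟩
    rw [e] at this
    exact this
  have hG3 : MemLp (fun x => G (x + 2)) 2 (volume.restrict (Ioc 0 1)) := by
    rw [← restrict_Ico_eq_restrict_Ioc]
    exact hG2.comp_measurePreserving mp
  have hbd : ∀ t, Integrable (fun x => G x * ee t x) nu := fun t =>
    (hG.integrable (by norm_num)).mul_bdd (c := 1) (continuous_ee t).aestronglyMeasurable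
      (Eventually.of_forall fun x => (norm_ee t x).le)
  have a1 : ∀ᵐ x ∂(volume.restrict (Ioc (0 : ℝ) 1)), G x + G (x + 2) = 0 := by
    refine fourier_zero (hG1.add hG3) fun n => ?_
    have h3 := h1 n
    rw [int_nu (hbd _)] at h3
    have h4 : ∀ x : ℝ, G x * ee (-n) x + G (x + 2) * ee (-n) (x + 2) = (G x + G (x + 2)) * ee (-n) x := by
      intro x
      have : ee (-n) 2 = 1 := by have := ee_int (-n); push_cast at this; exact this
      rw [ee_two, this]; ring
    simp_rw [h4] at h3
    rcases mul_eq_zero.1 h3 with h5 | h5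
    · norm_num at h5
    · exact h5
  have a2 : ∀ᵐ x ∂(volume.restrict (Ioc (0 : ℝ) 1)), (G x - G (x + 2)) * ee (-(1 / 4)) x = 0 := by
    refine fourier_zero ?_ fun n => ?_
    · refine (hG1.sub hG3).of_le_mul (c := 1) ((hG1.sub hG3).1.mul (continuous_ee _).aestronglyMeasurable) ?_
      refine Eventually.of_forall fun x => ?_
      rw [norm_mul, norm_ee, mul_one, one_mul]
      rfl
    · have h3 := h2 n
      rw [int_nu (hbd _)] at h3
      have h4 : ∀ x : ℝ, G x * ee (-(n + 1 / 4)) x + G (x + 2) * ee (-(n + 1 / 4)) (x + 2) =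
          (G x - G (x + 2)) * ee (-(1 / 4)) x * ee (-n) x := by
        intro x
        have e1 : ee (-n) 2 = 1 := by have := ee_int (-n); push_cast at this; exact this
        have e2 : ee (-(1 / 4)) 2 = -1 := by
          have h5 : ee (-(1 / 4)) 2 * ee (1 / 4) 2 = 1 := by
            rw [← ee_add]; simp [ee]
          rw [ee_quarter] at h5
          linear_combination -h5
        rw [ee_two, neg_add, ee_add, ee_add, e1, e2]; ring
      simp_rw [h4] at h3
      rcases mul_eq_zero.1 h3 with h5 | h5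
      · norm_num at h5
      · exact h5
  have a3 : ∀ᵐ x ∂(volume.restrict (Ioc (0 : ℝ) 1)), G x = 0 ∧ G (x + 2) = 0 := by
    filter_upwards [a1, a2] with x hx1 hx2
    have h3 : ee (-(1 / 4)) x ≠ 0 := by
      intro h; have := norm_ee (-(1 / 4)) x; rw [h, norm_zero] at this; norm_num at this
    rcases mul_eq_zero.1 hx2 with h4 | h4
    · constructor
      · linear_combination (hx1 + h4) / 2
      · linear_combination (hx1 - h4) / 2
    · exact absurd h4 h3
  rw [← restrict_Ico_eq_restrict_Ioc] at a3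
  have a4 : ∀ᵐ x ∂(volume.restrict (Ico (2 : ℝ) 3)), G x = 0 := by
    have mp' : MeasurePreserving (fun x : ℝ => x - 2) (volume.restrict (Ico 2 3)) (volume.restrict (Ico 0 1)) := by
      have := (measurePreserving_sub_right (volume : Measure ℝ) 2).restrict_preimage (measurableSet_Ico (a := 0) (b := 1))
      have e : (fun x : ℝ => x - 2) ⁻¹' Ico 0 1 = Ico 2 3 := by
        ext x
        simp only [mem_preimage, mem_Ico]
        constructor
        · rintro ⟨h1, h2⟩; exact ⟨by linarith, by linarith⟩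
        · rintro ⟨h1, h2⟩; exact ⟨by linarith, by linarith⟩
      rw [e] at this
      exact this
    filter_upwards [mp'.quasiMeasurePreserving.ae a3] with x hx
    have := hx.2
    rwa [sub_add_cancel] at this
  have a5 : ∀ᵐ x ∂(volume.restrict Om), G x = 0 := by
    rw [Om, ae_restrict_union_iff]
    exact ⟨a3.mono fun x hx => hx.1, a4⟩
  exact Measure.ae_smul_measure a5 _

end Pool.Agent.Q167.HT
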